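import Mathlib

/-! Dihedral octic extensions of `ℚ` generated by square roots of `x ± y √d`. -/

set_option autoImplicit false
set_option linter.unusedSectionVars false

attribute [-instance] DivisionRing.toRatAlgebra

namespace Pool.Agent.Q20.QD

open IntermediateField

variable {Om : Type*} [Field Om] [CharZero Om] [Algebra ℚ Om] [IsAlgClosed Om]
  [Algebra.IsAlgebraic ℚ Om]

instance instNormalOm : Normal ℚ Om := by
  have : IsAlgClosure ℚ Om := ⟨inferInstance, inferInstance⟩
  infer_instance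

instance instGaloisOm : IsGalois ℚ Om := ⟨⟩

theorem exists_moving (E : IntermediateField ℚ Om) {x : Om} (hx : x ∉ E) :
    ∃ σ : Om ≃ₐ[ℚ] Om, (∀ y ∈ E, σ y = y) ∧ σ x ≠ x := by
  by_contra hc
  push Not at hc
  apply hx
  rw [← InfiniteGalois.fixedField_fixingSubgroup E]
  rw [IntermediateField.mem_fixedField_iff]
  intro σ hσ
  exact hc σ ((IntermediateField.mem_fixingSubgroup_iff E σ).mp hσ)

theorem rat_mem (E : IntermediateField ℚ Om) (q : ℚ) : (q : Om) ∈ E := by
  have := E.algebraMap_mem q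
  rwa [eq_ratCast] at this

/-- A group with generators like the dihedral group of order 8. -/
theorem dihedral_of {G : Type*} [Group G] (ρ τ : G) (h4 : ρ ^ 4 = 1)
    (hττ : τ * τ = 1) (hc : ρ * τ * ρ = τ)
    (hsurj : ∀ g : G, (∃ i : ℕ, i < 4 ∧ g = ρ ^ i) ∨ (∃ i : ℕ, i < 4 ∧ g = τ * ρ ^ i))
    (hinj : ∀ i : ℕ, i < 4 → (ρ ^ i = 1 → i = 0) ∧ τ * ρ ^ i ≠ 1) :
    Nonempty (G ≃* DihedralGroup 4) := by
  have hmod : ∀ n : ℕ, ρ ^ (n % 4) = ρ ^ n := fun n => (pow_eq_pow_mod n h4).symm
  have hval : ∀ i j : ZMod 4, ρ ^ (i + j).val = ρ ^ i.val * ρ ^ j.val := by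
    intro i j
    rw [ZMod.val_add, hmod, pow_add]
  have hcomm : ∀ n : ℕ, ρ ^ n * τ * ρ ^ n = τ := by
    intro n
    induction n with
    | zero => simp
    | succ n ih =>
      calc ρ ^ (n + 1) * τ * ρ ^ (n + 1) = ρ ^ n * (ρ * τ * ρ) * ρ ^ n := by
            nth_rewrite 1 [pow_succ]; rw [pow_succ']; group
        _ = τ := by rw [hc, ih]
  have hsub : ∀ i j : ZMod 4, ρ ^ i.val * (τ * ρ ^ j.val) = τ * ρ ^ (j - i).val := by
    intro i j
    have h1 : ρ ^ j.val = ρ ^ i.val * ρ ^ (j - i).val := by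
      rw [← hval]; congr 2; ring
    rw [h1]
    calc ρ ^ i.val * (τ * (ρ ^ i.val * ρ ^ (j - i).val)) =
        (ρ ^ i.val * τ * ρ ^ i.val) * ρ ^ (j - i).val := by group
      _ = τ * ρ ^ (j - i).val := by rw [hcomm]
  let f : DihedralGroup 4 → G := fun x => match x with
    | DihedralGroup.r i => ρ ^ i.val
    | DihedralGroup.sr i => τ * ρ ^ i.val
  have hf1 : ∀ i : ZMod 4, f (DihedralGroup.r i) = ρ ^ i.val := fun i => rfl
  have hf2 : ∀ i : ZMod 4, f (DihedralGroup.sr i) = τ * ρ ^ i.val := fun i => rfl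
  let F : DihedralGroup 4 →* G :=
    { toFun := f
      map_one' := by
        rw [DihedralGroup.one_def, hf1]; simp
      map_mul' := by
        rintro (i | i) (j | j)
        · rw [DihedralGroup.r_mul_r, hf1, hf1, hf1, hval]
        · rw [DihedralGroup.r_mul_sr, hf1, hf2, hf2, hsub]
        · rw [DihedralGroup.sr_mul_r, hf1, hf2, hf2, hval, mul_assoc]
        · rw [DihedralGroup.sr_mul_sr, hf1, hf2, hf2]
          rw [mul_assoc, hsub, ← mul_assoc, hττ, one_mul] }
  have hFinj : Function.Injective F := by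
    rw [injective_iff_map_eq_one]
    rintro (i | i) hi
    · have h1 : ρ ^ i.val = 1 := hi
      have h2 := (hinj i.val (ZMod.val_lt i)).1 h1
      have h3 : i = 0 := (ZMod.val_eq_zero i).mp h2
      rw [h3]; rfl
    · exact absurd hi (hinj i.val (ZMod.val_lt i)).2
  have hFsurj : Function.Surjective F := by
    intro g
    rcases hsurj g with ⟨i, hi, rfl⟩ | ⟨i, hi, rfl⟩
    · refine ⟨DihedralGroup.r (i : ZMod 4), ?_⟩
      change ρ ^ (i : ZMod 4).val = ρ ^ i
      rw [ZMod.val_natCast, hmod]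
    · refine ⟨DihedralGroup.sr (i : ZMod 4), ?_⟩
      change τ * ρ ^ (i : ZMod 4).val = τ * ρ ^ i
      rw [ZMod.val_natCast, hmod]
  exact ⟨(MulEquiv.ofBijective F ⟨hFinj, hFsurj⟩).symm⟩

/-- A `D_4`-extension of `ℚ`. -/
def IsD4 (L : IntermediateField ℚ Om) : Prop :=
  IsGalois ℚ L ∧ Nonempty ((L ≃ₐ[ℚ] L) ≃* DihedralGroup 4)

/-- rational numbers inside -/
theorem sq_cases {u v : Om} (h : u ^ 2 = v ^ 2) : u = v ∨ u = -v := sq_eq_sq_iff_eq_or_eq_neg.mp h

theorem rat_sq_of {c : ℚ} {u : Om} (hu : u ^ 2 = (c : Om)) (h : u ∈ (⊥ : IntermediateField ℚ Om)) :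
    IsSquare c := by
  rw [IntermediateField.mem_bot] at h
  obtain ⟨q, rfl⟩ := h
  refine ⟨q, ?_⟩
  have h2 : ((q ^ 2 : ℚ) : Om) = (c : Om) := by
    rw [← hu, eq_ratCast]; push_cast; rfl
  have := Rat.cast_injective (α := Om) h2
  rw [← this]; ring

/-- The field generated by `√(x + y √d)` and `√(x - y √d)`. -/
theorem isD4 {x y d : ℚ} (hc : ¬ IsSquare (x ^ 2 - d * y ^ 2)) (hd : ¬ IsSquare d)
    (hcd : ¬ IsSquare (d * (x ^ 2 - d * y ^ 2))) {e s s' : Om} (he : e ^ 2 = (d : Om))
    (hs : s ^ 2 = (x : Om) + y * e) (hs' : s' ^ 2 = (x : Om) - y * e) :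
    IsD4 (IntermediateField.adjoin ℚ {s, s'}) := by
  -- basic facts
  have hy : y ≠ 0 := by
    rintro rfl
    apply hc
    exact ⟨x, by ring⟩
  have hyO : (y : Om) ≠ 0 := by exact_mod_cast hy
  have hd0 : d ≠ 0 := by
    rintro rfl
    exact hd ⟨0, by ring⟩
  have he0 : e ≠ 0 := by
    rintro rfl
    apply hd0
    have : (d : Om) = 0 := by rw [← he]; ring
    exact_mod_cast this
  have hc0 : (x ^ 2 - d * y ^ 2) ≠ 0 := by
    intro h
    apply hc
    rw [h]; exact ⟨0, by ring⟩
  have hprod : (s * s') ^ 2 = ((x ^ 2 - d * y ^ 2 : ℚ) : Om) := by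
    rw [mul_pow, hs, hs']
    push_cast
    linear_combination (-(y : Om) ^ 2) * he
  have hss' : s * s' ≠ 0 := by
    intro h
    rw [h] at hprod
    apply hc0
    have : ((x ^ 2 - d * y ^ 2 : ℚ) : Om) = 0 := by rw [← hprod]; ring
    exact_mod_cast this
  have hs0 : s ≠ 0 := left_ne_zero_of_mul hss'
  have hs'0 : s' ≠ 0 := right_ne_zero_of_mul hss'
  have h2O : (2 : Om) ≠ 0 := by norm_num
  have hne : s ^ 2 ≠ s' ^ 2 := by
    intro h
    rw [hs, hs'] at h
    have : 2 * ((y : Om) * e) = 0 := by linear_combination h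
    rcases mul_eq_zero.mp this with h | h
    · exact h2O h
    · exact (mul_ne_zero hyO he0) h
  have hes : e = (s ^ 2 - x) / y := by
    rw [hs]; field_simp; ring
  have hes' : e = -(s' ^ 2 - x) / y := by
    rw [hs']; field_simp; ring
  have hrat : ∀ (σ : Om ≃ₐ[ℚ] Om) (q : ℚ), σ (q : Om) = q := fun σ q => map_ratCast σ q
  -- `e` is not rational
  have heb : e ∉ (⊥ : IntermediateField ℚ Om) := fun h => hd (rat_sq_of he h)
  -- `s ∉ ℚ(e)`
  have hcoord : ∀ z ∈ IntermediateField.adjoin ℚ {e}, ∃ p q : ℚ, z = (p : Om) + q * e := by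
    intro z hz
    induction hz using IntermediateField.adjoin_induction with
    | mem z hz =>
      rw [Set.mem_singleton_iff] at hz
      exact ⟨0, 1, by rw [hz]; push_cast; ring⟩
    | algebraMap q => exact ⟨q, 0, by push_cast; simp⟩
    | add z w _ _ hz hw =>
      obtain ⟨p, q, rfl⟩ := hz
      obtain ⟨p', q', rfl⟩ := hw
      exact ⟨p + p', q + q', by push_cast; ring⟩
    | inv z _ hz =>
      obtain ⟨p, q, rfl⟩ := hz
      by_cases h0 : p ^ 2 - d * q ^ 2 = 0
      · have hq : q = 0 := by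
          by_contra hq
          apply hd
          refine ⟨p / q, ?_⟩
          field_simp
          linear_combination -h0
        subst hq
        exact ⟨p⁻¹, 0, by push_cast; ring⟩
      · refine ⟨p / (p ^ 2 - d * q ^ 2), -q / (p ^ 2 - d * q ^ 2), ?_⟩
        have h0' : ((p : Om) ^ 2 - d * q ^ 2) ≠ 0 := by exact_mod_cast h0
        have h1 : ((p : Om) + q * e) * ((p : Om) - q * e) = (p : Om) ^ 2 - d * q ^ 2 := by
          linear_combination (-(q : Om) ^ 2) * he
        have h2 : ((p : Om) + q * e) ≠ 0 := by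
          intro h
          rw [h, zero_mul] at h1
          exact h0' h1.symm
        apply inv_eq_of_mul_eq_one_right
        have h3 : ((p : Om) + q * e) * (((p / (p ^ 2 - d * q ^ 2) : ℚ) : Om) +
            ((-q / (p ^ 2 - d * q ^ 2) : ℚ) : Om) * e) =
            (((p : Om) + q * e) * ((p : Om) - q * e)) / ((p : Om) ^ 2 - d * q ^ 2) := by
          push_cast; ring
        rw [h3, h1, div_self h0']
    | mul z w _ _ hz hw =>
      obtain ⟨p, q, rfl⟩ := hz
      obtain ⟨p', q', rfl⟩ := hw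
      refine ⟨p * p' + d * q * q', p * q' + q * p', ?_⟩
      push_cast
      linear_combination (q : Om) * q' * he
  have hind : ∀ p q : ℚ, (p : Om) + q * e = 0 → p = 0 ∧ q = 0 := by
    intro p q h
    by_cases hq : q = 0
    · subst hq
      refine ⟨?_, rfl⟩
      have : (p : Om) = 0 := by rw [← h]; push_cast; ring
      exact_mod_cast this
    · exfalso
      apply heb
      rw [IntermediateField.mem_bot]
      refine ⟨-p / q, ?_⟩
      have hq' : (q : Om) ≠ 0 := by exact_mod_cast hq
      rw [eq_ratCast]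
      push_cast
      field_simp
      linear_combination -h
  have hsE : s ∉ IntermediateField.adjoin ℚ {e} := by
    intro h
    obtain ⟨p, q, hpq⟩ := hcoord s h
    have h1 : ((p ^ 2 + d * q ^ 2 - x : ℚ) : Om) + ((2 * p * q - y : ℚ) : Om) * e = 0 := by
      rw [hpq] at hs
      push_cast
      linear_combination hs - (q : Om) ^ 2 * he
    obtain ⟨h2, h3⟩ := hind _ _ h1
    apply hc
    refine ⟨p ^ 2 - d * q ^ 2, ?_⟩
    have e1 : x = p ^ 2 + d * q ^ 2 := by linarith
    have e2 : y = 2 * p * q := by linarith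
    rw [e1, e2]; ring
  -- `s s' ∉ ℚ(s)`
  have hcoord2 : ∀ z ∈ IntermediateField.adjoin ℚ {s}, ∃ u ∈ IntermediateField.adjoin ℚ {e},
      ∃ v ∈ IntermediateField.adjoin ℚ {e}, z = u + v * s := by
    have heE : e ∈ IntermediateField.adjoin ℚ {e} :=
      IntermediateField.subset_adjoin ℚ _ (Set.mem_singleton e)
    have hratE : ∀ q : ℚ, (q : Om) ∈ IntermediateField.adjoin ℚ {e} := fun q =>
      rat_mem _ q
    have hs2E : s ^ 2 ∈ IntermediateField.adjoin ℚ {e} := by
      rw [hs]; exact add_mem (hratE x) (mul_mem (hratE y) heE)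
    intro z hz
    induction hz using IntermediateField.adjoin_induction with
    | mem z hz =>
      rw [Set.mem_singleton_iff] at hz
      exact ⟨0, zero_mem _, 1, one_mem _, by rw [hz]; ring⟩
    | algebraMap q => exact ⟨(q : Om), hratE q, 0, zero_mem _, by simp⟩
    | add z w _ _ hz hw =>
      obtain ⟨u, hu, v, hv, rfl⟩ := hz
      obtain ⟨u', hu', v', hv', rfl⟩ := hw
      exact ⟨u + u', add_mem hu hu', v + v', add_mem hv hv', by ring⟩
    | inv z _ hz =>
      obtain ⟨u, hu, v, hv, rfl⟩ := hz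
      by_cases h0 : u ^ 2 - s ^ 2 * v ^ 2 = 0
      · have hv0 : v = 0 := by
          by_contra hv0
          apply hsE
          have h1 : (u / v) ^ 2 = s ^ 2 := by
            field_simp
            linear_combination h0
          rcases sq_cases h1 with h2 | h2
          · rw [← h2]; exact div_mem hu hv
          · have : s = -(u / v) := by rw [h2]; ring
            rw [this]; exact neg_mem (div_mem hu hv)
        subst hv0
        exact ⟨u⁻¹, inv_mem hu, 0, zero_mem _, by ring⟩
      · refine ⟨u / (u ^ 2 - s ^ 2 * v ^ 2), div_mem hu (sub_mem (pow_mem hu 2)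
          (mul_mem hs2E (pow_mem hv 2))), -v / (u ^ 2 - s ^ 2 * v ^ 2),
          div_mem (neg_mem hv) (sub_mem (pow_mem hu 2) (mul_mem hs2E (pow_mem hv 2))), ?_⟩
        have h2 : u + v * s ≠ 0 := by
          intro h
          apply h0
          have : u = -(v * s) := by linear_combination h
          rw [this]; ring
        have h3 : (u / (u ^ 2 - s ^ 2 * v ^ 2) + -v / (u ^ 2 - s ^ 2 * v ^ 2) * s) =
          (u - v * s) / (u ^ 2 - s ^ 2 * v ^ 2) := by ring
        rw [h3, inv_eq_iff_eq_inv, inv_div, eq_div_iff]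
        · ring
        · intro h
          apply h0
          have : u = v * s := by linear_combination h
          rw [this]; ring
    | mul z w _ _ hz hw =>
      obtain ⟨u, hu, v, hv, rfl⟩ := hz
      obtain ⟨u', hu', v', hv', rfl⟩ := hw
      refine ⟨u * u' + s ^ 2 * (v * v'), add_mem (mul_mem hu hu') (mul_mem hs2E (mul_mem hv hv')),
        u * v' + v * u', add_mem (mul_mem hu hv') (mul_mem hv hu'), by ring⟩
  have hs'E : s' ∉ IntermediateField.adjoin ℚ {s} := by
    intro h
    have h1 : s * s' ∈ IntermediateField.adjoin ℚ {s} :=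
      mul_mem (IntermediateField.subset_adjoin ℚ _ (Set.mem_singleton s)) h
    obtain ⟨u, hu, v, hv, huv⟩ := hcoord2 _ h1
    -- (s s')^2 = c = u^2 + s^2 v^2 + 2 u v s
    have h2 : u * v = 0 := by
      by_contra h0
      apply hsE
      have h3 : s = (((x ^ 2 - d * y ^ 2 : ℚ) : Om) - u ^ 2 - s ^ 2 * v ^ 2) / (2 * (u * v)) := by
        rw [eq_div_iff (mul_ne_zero h2O h0)]
        rw [huv] at hprod
        linear_combination hprod
      rw [h3]
      have heE : e ∈ IntermediateField.adjoin ℚ {e} :=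
        IntermediateField.subset_adjoin ℚ _ (Set.mem_singleton e)
      have hratE : ∀ q : ℚ, (q : Om) ∈ IntermediateField.adjoin ℚ {e} := fun q =>
        rat_mem _ q
      have hs2E : s ^ 2 ∈ IntermediateField.adjoin ℚ {e} := by
        rw [hs]; exact add_mem (hratE x) (mul_mem (hratE y) heE)
      have h2E : (2 : Om) ∈ IntermediateField.adjoin ℚ {e} := ofNat_mem _ 2
      exact div_mem (sub_mem (sub_mem (hratE _) (pow_mem hu 2)) (mul_mem hs2E (pow_mem hv 2)))
        (mul_mem h2E (mul_mem hu hv))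
    rcases mul_eq_zero.mp h2 with h3 | h3
    · -- `s s' = v s`
      rw [h3] at huv
      have h4 : s' = v := by
        have : s * (s' - v) = 0 := by linear_combination huv
        rcases mul_eq_zero.mp this with h | h
        · exact absurd h hs0
        · linear_combination h
      obtain ⟨p, q, hpq⟩ := hcoord v hv
      have h1 : ((p ^ 2 + d * q ^ 2 - x : ℚ) : Om) + ((2 * p * q + y : ℚ) : Om) * e = 0 := by
        rw [h4, hpq] at hs'
        push_cast
        linear_combination hs' - (q : Om) ^ 2 * he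
      obtain ⟨h5, h6⟩ := hind _ _ h1
      apply hc
      refine ⟨p ^ 2 - d * q ^ 2, ?_⟩
      have e1 : x = p ^ 2 + d * q ^ 2 := by linarith
      have e2 : y = -(2 * p * q) := by linarith
      rw [e1, e2]; ring
    · -- `s s' = u ∈ ℚ(e)`
      rw [h3, zero_mul, add_zero] at huv
      obtain ⟨p, q, hpq⟩ := hcoord u hu
      have h1 : ((p ^ 2 + d * q ^ 2 - (x ^ 2 - d * y ^ 2) : ℚ) : Om) + ((2 * p * q : ℚ) : Om) * e = 0 := by
        rw [huv, hpq] at hprod
        push_cast at hprod ⊢
        linear_combination hprod - (q : Om) ^ 2 * he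
      obtain ⟨h5, h6⟩ := hind _ _ h1
      have h7 : p * q = 0 := by linarith
      rcases mul_eq_zero.mp h7 with h8 | h8
      · apply hcd
        refine ⟨d * q, ?_⟩
        rw [h8] at h5
        linear_combination -d * h5
      · apply hc
        refine ⟨p, ?_⟩
        rw [h8] at h5
        linear_combination -h5
  -- automorphisms
  obtain ⟨σ1, -, hσ1⟩ := exists_moving ⊥ heb
  obtain ⟨σ3, hσ3, hσ3'⟩ := exists_moving _ hs'E
  have hcl : ∀ σ : Om ≃ₐ[ℚ] Om, σ e = e ∨ σ e = -e := by
    intro σ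
    apply sq_cases
    rw [← map_pow, he, hrat]
  have hact : ∀ σ : Om ≃ₐ[ℚ] Om, ((σ s = s ∨ σ s = -s) ∧ (σ s' = s' ∨ σ s' = -s')) ∨
      ((σ s = s' ∨ σ s = -s') ∧ (σ s' = s ∨ σ s' = -s)) := by
    intro σ
    rcases hcl σ with h | h
    · left
      constructor
      · apply sq_cases
        rw [← map_pow, hs, map_add, map_mul, hrat, hrat, h]
      · apply sq_cases
        rw [← map_pow, hs', map_sub, map_mul, hrat, hrat, h]
    · right
      constructor
      · apply sq_cases
        rw [← map_pow, hs, map_add, map_mul, hrat, hrat, h, hs']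
        ring
      · apply sq_cases
        rw [← map_pow, hs', map_sub, map_mul, hrat, hrat, h, hs]
        ring
  -- τ : s ↦ s, s' ↦ -s'
  have hτs : σ3 s = s := hσ3 s (IntermediateField.subset_adjoin ℚ _ (Set.mem_singleton s))
  have hτs' : σ3 s' = -s' := by
    have h1 : σ3 s' = s' ∨ σ3 s' = -s' := by
      apply sq_cases
      rw [← map_pow, hs', map_sub, map_mul, hrat, hrat]
      congr 2
      rw [hes, map_div₀, map_sub, map_pow, hτs, hrat, hrat]
    exact h1.resolve_left hσ3'
  -- σ1 moves e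
  have hσ1e : σ1 e = -e := (hcl σ1).resolve_left hσ1
  have h1s : σ1 s = s' ∨ σ1 s = -s' := by
    apply sq_cases
    rw [← map_pow, hs, map_add, map_mul, hrat, hrat, hσ1e, hs']
    ring
  have h1s' : σ1 s' = s ∨ σ1 s' = -s := by
    apply sq_cases
    rw [← map_pow, hs', map_sub, map_mul, hrat, hrat, hσ1e, hs]
    ring
  -- ρ : s ↦ s', s' ↦ -s
  obtain ⟨σr, hrs, hrs'⟩ : ∃ σ : Om ≃ₐ[ℚ] Om, σ s = s' ∧ σ s' = -s := by
    rcases h1s with h | h <;> rcases h1s' with h' | h'
    · -- (s', s)
      refine ⟨σ3.trans σ1, ?_, ?_⟩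
      · rw [AlgEquiv.trans_apply, hτs, h]
      · rw [AlgEquiv.trans_apply, hτs', map_neg, h']
    · exact ⟨σ1, h, h'⟩
    · -- (-s', s) : inverse of what we want: use cube
      refine ⟨(σ1.trans σ1).trans σ1, ?_, ?_⟩
      · simp only [AlgEquiv.trans_apply, h, h', map_neg, neg_neg]
      · simp only [AlgEquiv.trans_apply, h, h', map_neg]
    · -- (-s', -s) : σ1 then τ : s ↦ -s' ↦ s', s' ↦ -s ↦ -s
      refine ⟨σ1.trans σ3, ?_, ?_⟩
      · rw [AlgEquiv.trans_apply, h, map_neg, hτs', neg_neg]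
      · rw [AlgEquiv.trans_apply, h', map_neg, hτs]
  -- the field
  set L := IntermediateField.adjoin ℚ {s, s'} with hL
  have hsL : s ∈ L := IntermediateField.subset_adjoin ℚ _ (by simp)
  have hs'L : s' ∈ L := IntermediateField.subset_adjoin ℚ _ (by simp)
  have hnorm : Normal ℚ L := by
    rw [IntermediateField.normal_iff_forall_map_le']
    intro σ
    rw [hL, IntermediateField.adjoin_map, IntermediateField.adjoin_le_iff]
    rintro _ ⟨z, hz, rfl⟩
    have hnegL : -s ∈ L := neg_mem hsL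
    have hnegL' : -s' ∈ L := neg_mem hs'L
    change σ z ∈ L
    rcases hz with rfl | hz
    · rcases hact σ with ⟨h | h, -⟩ | ⟨h | h, -⟩ <;> rw [h] <;> assumption
    · rw [Set.mem_singleton_iff] at hz
      subst hz
      rcases hact σ with ⟨-, h | h⟩ | ⟨-, h | h⟩ <;> rw [h] <;> assumption
  have hgal : IsGalois ℚ L := ⟨⟩
  refine ⟨hgal, ?_⟩
  -- group elements determined by their action
  have hdet : ∀ g g' : L ≃ₐ[ℚ] L, g ⟨s, hsL⟩ = g' ⟨s, hsL⟩ → g ⟨s', hs'L⟩ = g' ⟨s', hs'L⟩ → g = g' := by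
    intro g g' h h'
    apply AlgEquiv.ext
    rintro ⟨z, hz⟩
    have hz' := hz
    rw [hL] at hz'
    induction hz' using IntermediateField.adjoin_induction with
    | mem z hz' =>
      rcases hz' with rfl | hz'
      · exact h
      · rw [Set.mem_singleton_iff] at hz'
        subst hz'
        exact h'
    | algebraMap q =>
      have : (⟨algebraMap ℚ Om q, hz⟩ : L) = algebraMap ℚ L q := rfl
      rw [this, AlgEquiv.commutes, AlgEquiv.commutes]
    | add z w hz1 hw1 ihz ihw =>
      have : (⟨z + w, hz⟩ : L) = ⟨z, hz1⟩ + ⟨w, hw1⟩ := rfl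
      rw [this, map_add, map_add, ihz, ihw]
    | inv z hz1 ihz =>
      have : (⟨z⁻¹, hz⟩ : L) = (⟨z, hz1⟩)⁻¹ := rfl
      rw [this, map_inv₀, map_inv₀, ihz]
    | mul z w hz1 hw1 ihz ihw =>
      have : (⟨z * w, hz⟩ : L) = ⟨z, hz1⟩ * ⟨w, hw1⟩ := rfl
      rw [this, map_mul, map_mul, ihz, ihw]
  let res : (Om ≃ₐ[ℚ] Om) →* (L ≃ₐ[ℚ] L) := AlgEquiv.restrictNormalHom L
  have hres : ∀ (σ : Om ≃ₐ[ℚ] Om) (z : L), ((res σ z : L) : Om) = σ z :=
    fun σ z => AlgEquiv.restrictNormal_commutes σ L z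
  have hsurjres : ∀ g : L ≃ₐ[ℚ] L, ∃ σ, res σ = g :=
    fun g => AlgEquiv.restrictNormalHom_surjective Om g
  set S : L := ⟨s, hsL⟩ with hS
  set S' : L := ⟨s', hs'L⟩ with hS'
  have hS0 : S ≠ 0 := fun h => hs0 (congrArg Subtype.val h)
  have hS'0 : S' ≠ 0 := fun h => hs'0 (congrArg Subtype.val h)
  set ρ := res σr with hρ
  set τ := res σ3 with hτ
  have ρS : ρ S = S' := Subtype.ext (by rw [hρ, hres]; exact hrs)
  have ρS' : ρ S' = -S := Subtype.ext (by rw [hρ, hres]; exact hrs')
  have τS : τ S = S := Subtype.ext (by rw [hτ, hres]; exact hτs)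
  have τS' : τ S' = -S' := Subtype.ext (by rw [hτ, hres]; exact hτs')
  have hne1 : S ≠ S' := by
    intro h
    apply hne
    have := congrArg Subtype.val h
    change s = s' at this
    rw [this]
  have hne2 : S ≠ -S' := by
    intro h
    apply hne
    have := congrArg Subtype.val h
    change s = -s' at this
    rw [this]; ring
  have hself : ∀ z : L, z ≠ 0 → -z ≠ z := by
    intro z hz h
    apply hz
    have : 2 * z = 0 := by linear_combination -h
    rcases mul_eq_zero.mp this with h | h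
    · norm_num at h
    · exact h
  have hactL : ∀ g : L ≃ₐ[ℚ] L, ((g S = S ∨ g S = -S) ∧ (g S' = S' ∨ g S' = -S')) ∨
      ((g S = S' ∨ g S = -S') ∧ (g S' = S ∨ g S' = -S)) := by
    intro g
    obtain ⟨σ, rfl⟩ := hsurjres g
    have e1 : ∀ w z : L, (res σ w = z) ↔ σ (w : Om) = (z : Om) := by
      intro w z
      rw [← hres]
      exact Subtype.ext_iff
    rw [e1, e1, e1, e1, e1, e1, e1, e1]
    exact hact σ
  apply dihedral_of ρ τ
  · apply hdet
    · change ρ (ρ (ρ (ρ S))) = S
      simp only [ρS, ρS', map_neg, neg_neg]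
    · change ρ (ρ (ρ (ρ S'))) = S'
      simp only [ρS, ρS', map_neg, neg_neg]
  · apply hdet
    · change τ (τ S) = S
      simp only [τS]
    · change τ (τ S') = S'
      simp only [τS', map_neg, neg_neg]
  · apply hdet
    · change ρ (τ (ρ S)) = τ S
      simp only [ρS, ρS', τS, τS', map_neg, neg_neg]
    · change ρ (τ (ρ S')) = τ S'
      simp only [ρS, ρS', τS, τS', map_neg]
  · intro g
    rcases hactL g with ⟨h | h, h' | h'⟩ | ⟨h | h, h' | h'⟩
    · left; refine ⟨0, by norm_num, hdet _ _ ?_ ?_⟩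
      · rw [h]; rfl
      · rw [h']; rfl
    · right; refine ⟨0, by norm_num, hdet _ _ ?_ ?_⟩
      · rw [h]; change S = τ S; rw [τS]
      · rw [h']; change -S' = τ S'; rw [τS']
    · right; refine ⟨2, by norm_num, hdet _ _ ?_ ?_⟩
      · rw [h]; change -S = τ (ρ (ρ S)); simp only [ρS, ρS', τS, map_neg]
      · rw [h']; change S' = τ (ρ (ρ S')); simp only [ρS, ρS', τS', map_neg, neg_neg]
    · left; refine ⟨2, by norm_num, hdet _ _ ?_ ?_⟩
      · rw [h]; change -S = (ρ (ρ S)); simp only [ρS, ρS']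
      · rw [h']; change -S' = (ρ (ρ S')); simp only [ρS, ρS', map_neg]
    · right; refine ⟨3, by norm_num, hdet _ _ ?_ ?_⟩
      · rw [h]; change S' = τ (ρ (ρ (ρ S))); simp only [ρS, ρS', τS', map_neg, neg_neg]
      · rw [h']; change S = τ (ρ (ρ (ρ S'))); simp only [ρS, ρS', τS, map_neg, neg_neg]
    · left; refine ⟨1, by norm_num, hdet _ _ ?_ ?_⟩
      · rw [h]; change S' = ρ S; rw [ρS]
      · rw [h']; change -S = ρ S'; rw [ρS']
    · left; refine ⟨3, by norm_num, hdet _ _ ?_ ?_⟩
      · rw [h]; change -S' = (ρ (ρ (ρ S))); simp only [ρS, ρS', map_neg]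
      · rw [h']; change S = (ρ (ρ (ρ S'))); simp only [ρS, ρS', map_neg, neg_neg]
    · right; refine ⟨1, by norm_num, hdet _ _ ?_ ?_⟩
      · rw [h]; change -S' = τ (ρ S); simp only [ρS, τS']
      · rw [h']; change -S = τ (ρ S'); simp only [ρS', τS, map_neg]
  · intro i hi
    interval_cases i
    · refine ⟨fun _ => rfl, ?_⟩
      intro h
      have := congrArg (fun g : L ≃ₐ[ℚ] L => g S') h
      change τ S' = S' at this
      rw [τS'] at this
      exact hself S' hS'0 this
    · refine ⟨?_, ?_⟩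
      · intro h
        exfalso
        have := congrArg (fun g : L ≃ₐ[ℚ] L => g S) h
        change ρ S = S at this
        rw [ρS] at this
        exact hne1 this.symm
      · intro h
        have := congrArg (fun g : L ≃ₐ[ℚ] L => g S) h
        change τ (ρ S) = S at this
        rw [ρS, τS'] at this
        exact hne2 this.symm
    · refine ⟨?_, ?_⟩
      · intro h
        exfalso
        have := congrArg (fun g : L ≃ₐ[ℚ] L => g S) h
        change ρ (ρ S) = S at this
        rw [ρS, ρS'] at this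
        exact hself S hS0 this
      · intro h
        have := congrArg (fun g : L ≃ₐ[ℚ] L => g S) h
        change τ (ρ (ρ S)) = S at this
        rw [ρS, ρS', map_neg, τS] at this
        exact hself S hS0 this
    · refine ⟨?_, ?_⟩
      · intro h
        exfalso
        have := congrArg (fun g : L ≃ₐ[ℚ] L => g S) h
        change ρ (ρ (ρ S)) = S at this
        rw [ρS, ρS', map_neg, ρS] at this
        exact hne2 this.symm
      · intro h
        have := congrArg (fun g : L ≃ₐ[ℚ] L => g S) h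
        change τ (ρ (ρ (ρ S))) = S at this
        rw [ρS, ρS', map_neg, ρS, map_neg, τS', neg_neg] at this
        exact hne1 this.symm

end Pool.Agent.Q20.QD
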