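import Pool.Agent.Q20.QD.A

/-! Square roots of `x + y √d` lie in the compositum of all dihedral octic extensions. -/

set_option autoImplicit false
set_option linter.unusedSectionVars false

attribute [-instance] DivisionRing.toRatAlgebra

namespace Pool.Agent.Q20.QD

open IntermediateField

variable {Om : Type*} [Field Om] [CharZero Om] [Algebra ℚ Om] [IsAlgClosed Om]
  [Algebra.IsAlgebraic ℚ Om]

/-- The compositum of all `D_4`-extensions of `ℚ`. -/
noncomputable def QD4 (Om : Type*) [Field Om] [Algebra ℚ Om] : IntermediateField ℚ Om := sSup {L | IsD4 L}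

theorem le_QD4 {L : IntermediateField ℚ Om} (h : IsD4 L) : L ≤ QD4 Om := le_sSup h

theorem exists_sqrt (z : Om) : ∃ w : Om, w ^ 2 = z := IsAlgClosed.exists_pow_nat_eq z (by norm_num)

theorem dmem0 {x y d : ℚ} (hc : ¬ IsSquare (x ^ 2 - d * y ^ 2)) (hd : ¬ IsSquare d)
    (hcd : ¬ IsSquare (d * (x ^ 2 - d * y ^ 2))) {e s : Om} (he : e ^ 2 = (d : Om))
    (hs : s ^ 2 = (x : Om) + y * e) : s ∈ QD4 Om := by
  obtain ⟨s', hs'⟩ := exists_sqrt ((x : Om) - y * e)
  exact le_QD4 (isD4 hc hd hcd he hs hs') (IntermediateField.subset_adjoin ℚ _ (by simp))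

theorem neg_not_square {q : ℚ} (hq : q < 0) : ¬ IsSquare q := by
  rintro ⟨r, hr⟩
  nlinarith [mul_self_nonneg r]

theorem mem_of_sq_rat {x : ℚ} {s : Om} (hs : s ^ 2 = (x : Om)) : s ∈ QD4 Om := by
  by_cases hx : IsSquare x
  · obtain ⟨q, rfl⟩ := hx
    have h1 : s ^ 2 = (q : Om) ^ 2 := by rw [hs]; push_cast; ring
    rcases sq_cases h1 with h | h
    · rw [h]; exact rat_mem _ q
    · rw [h]; exact neg_mem (rat_mem _ q)
  · have hx0 : x ≠ 0 := by
      rintro rfl
      exact hx ⟨0, by ring⟩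
    by_cases hx' : IsSquare (-x)
    · obtain ⟨q, hq⟩ := hx'
      -- `i` is in the field
      have h2 : ¬ IsSquare (2 : ℚ) := by
        rw [Rat.isSquare_iff]
        rintro ⟨h, -⟩
        revert h
        have : (2 : ℚ).num = 2 := rfl
        rw [this]
        rintro ⟨r, hr⟩
        have h3 : r ≤ 1 := by nlinarith
        have h4 : -1 ≤ r := by nlinarith
        interval_cases r <;> omega
      obtain ⟨e, he⟩ := exists_sqrt ((2 : ℚ) : Om)
      obtain ⟨f, hf⟩ := exists_sqrt e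
      obtain ⟨f', hf'⟩ := exists_sqrt (-e)
      have hd4 := isD4 (x := 0) (y := 1) (d := 2) (neg_not_square (by norm_num)) h2
        (neg_not_square (by norm_num)) he (s := f) (s' := f') (by rw [hf]; push_cast; ring)
        (by rw [hf']; push_cast; ring)
      have hfm : f ∈ QD4 Om := le_QD4 hd4 (IntermediateField.subset_adjoin ℚ _ (by simp))
      have hfm' : f' ∈ QD4 Om := le_QD4 hd4 (IntermediateField.subset_adjoin ℚ _ (by simp))
      have he0 : e ≠ 0 := by
        rintro rfl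
        norm_num at he
      have h3 : s ^ 2 = ((q : Om) * (f * f' / e)) ^ 2 := by
        have h4 : (q : Om) * q = -(x : Om) := by
          have : ((q * q : ℚ) : Om) = ((-x : ℚ) : Om) := by rw [hq]
          push_cast at this
          exact this
        rw [hs, mul_pow, div_pow, mul_pow, hf, hf']
        field_simp
        linear_combination h4
      have h5 : (q : Om) * (f * f' / e) ∈ QD4 Om := by
        apply mul_mem (rat_mem _ q)
        apply div_mem (mul_mem hfm hfm')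
        rw [← hf]; exact pow_mem hfm 2
      rcases sq_cases h3 with h | h
      · rw [h]; exact h5
      · rw [h]; exact neg_mem h5
    · obtain ⟨f, hf⟩ := exists_sqrt s
      have hfm : f ∈ QD4 Om := by
        refine dmem0 (x := 0) (y := 1) (d := x) ?_ hx ?_ hs (by rw [hf]; push_cast; ring)
        · have : (0 : ℚ) ^ 2 - x * 1 ^ 2 = -x := by ring
          rw [this]; exact hx'
        · apply neg_not_square
          have : x * ((0 : ℚ) ^ 2 - x * 1 ^ 2) = -(x ^ 2) := by ring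
          rw [this]
          have : 0 < x ^ 2 := by positivity
          linarith
      rw [← hf]; exact pow_mem hfm 2

theorem mem_of_sq {u v : Om} (h : u ^ 2 = v ^ 2) (hv : v ∈ QD4 Om) : u ∈ QD4 Om := by
  rcases sq_cases h with h | h
  · rw [h]; exact hv
  · rw [h]; exact neg_mem hv

theorem dmem {x y d : ℚ} {e s : Om} (he : e ^ 2 = (d : Om))
    (hs : s ^ 2 = (x : Om) + y * e) : s ∈ QD4 Om := by
  by_cases hd : IsSquare d
  · obtain ⟨q, rfl⟩ := hd
    have h1 : e ^ 2 = (q : Om) ^ 2 := by rw [he]; push_cast; ring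
    rcases sq_cases h1 with h | h
    · exact mem_of_sq_rat (x := x + y * q) (by rw [hs, h]; push_cast; ring)
    · exact mem_of_sq_rat (x := x - y * q) (by rw [hs, h]; push_cast; ring)
  by_cases hc : IsSquare (x ^ 2 - d * y ^ 2)
  · obtain ⟨f, hf⟩ := hc
    by_cases hs0 : s = 0
    · rw [hs0]; exact zero_mem _
    have hfO : (f : Om) * f = (x : Om) ^ 2 - d * (y : Om) ^ 2 := by
      have : ((f * f : ℚ) : Om) = ((x ^ 2 - d * y ^ 2 : ℚ) : Om) := by rw [hf]
      push_cast at this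
      exact this
    have hs' : (f / s) ^ 2 = (x : Om) - y * e := by
      rw [div_pow, div_eq_iff (pow_ne_zero 2 hs0), hs]
      linear_combination hfO + (y : Om) ^ 2 * he
    have h1 : s + f / s ∈ QD4 Om := by
      refine mem_of_sq_rat (x := 2 * x + 2 * f) ?_
      have : (s + f / s) ^ 2 = s ^ 2 + (f / s) ^ 2 + 2 * f := by field_simp; ring
      rw [this, hs', hs]; push_cast; ring
    have h2 : s - f / s ∈ QD4 Om := by
      refine mem_of_sq_rat (x := 2 * x - 2 * f) ?_
      have : (s - f / s) ^ 2 = s ^ 2 + (f / s) ^ 2 - 2 * f := by field_simp; ring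
      rw [this, hs', hs]; push_cast; ring
    have h3 : s = ((s + f / s) + (s - f / s)) / 2 := by ring
    rw [h3]
    exact div_mem (add_mem h1 h2) (ofNat_mem _ 2)
  by_cases hcd : IsSquare (d * (x ^ 2 - d * y ^ 2))
  · obtain ⟨w, hw⟩ := hcd
    have hd0 : d ≠ 0 := by
      rintro rfl
      exact hd ⟨0, by ring⟩
    obtain ⟨z, hz⟩ : ∃ z : ℚ, w = d * z := ⟨w / d, by field_simp⟩
    have hx2 : x ^ 2 = d * (y ^ 2 + z ^ 2) := by
      rw [hz] at hw
      have : d * (x ^ 2 - d * (y ^ 2 + z ^ 2)) = 0 := by linear_combination hw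
      rcases mul_eq_zero.mp this with h | h
      · exact absurd h hd0
      · linarith
    have hx0 : x ≠ 0 := by
      rintro rfl
      have h1 : y ^ 2 + z ^ 2 = 0 := by
        have : d * (y ^ 2 + z ^ 2) = 0 := by rw [← hx2]; ring
        rcases mul_eq_zero.mp this with h | h
        · exact absurd h hd0
        · exact h
      have hy0 : y = 0 := by nlinarith [sq_nonneg y, sq_nonneg z]
      apply hc
      rw [hy0]
      exact ⟨0, by ring⟩
    have hyz : 0 < y ^ 2 + z ^ 2 := by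
      have h1 : 0 ≤ y ^ 2 + z ^ 2 := by positivity
      rcases eq_or_lt_of_le h1 with h2 | h2
      · exfalso
        rw [← h2, mul_zero] at hx2
        exact hx0 (pow_eq_zero_iff (two_ne_zero) |>.mp hx2)
      · exact h2
    have hdpos : 0 < d := by
      have h1 : 0 < x ^ 2 := by positivity
      by_contra hneg
      push Not at hneg
      nlinarith
    obtain ⟨i, hi⟩ := exists_sqrt ((-1 : ℚ) : Om)
    obtain ⟨p, hp⟩ := exists_sqrt ((y : Om) + z * i)
    obtain ⟨f, hf⟩ := exists_sqrt e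
    obtain ⟨r2, hr2⟩ := exists_sqrt ((2 : ℚ) : Om)
    have hfm : f ∈ QD4 Om := by
      refine dmem0 (x := 0) (y := 1) (d := d) ?_ hd ?_ he (by rw [hf]; push_cast; ring)
      · apply neg_not_square
        linarith
      · apply neg_not_square
        have : d * ((0 : ℚ) ^ 2 - d * 1 ^ 2) = -(d ^ 2) := by ring
        rw [this]
        have : 0 < d ^ 2 := by positivity
        linarith
    have hem : e ∈ QD4 Om := by rw [← hf]; exact pow_mem hfm 2
    have hpm : p ∈ QD4 Om := by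
      refine dmem0 (x := y) (y := z) (d := -1) ?_ (neg_not_square (by norm_num)) ?_ hi hp
      · rintro ⟨g, hg⟩
        have hg0 : g ≠ 0 := by
          rintro rfl
          linarith
        apply hd
        refine ⟨x / g, ?_⟩
        field_simp
        rw [hx2]
        linear_combination (-d) * hg
      · apply neg_not_square
        linarith
    have hr2m : r2 ∈ QD4 Om := mem_of_sq_rat hr2
    have he0 : e ≠ 0 := by
      rintro rfl
      apply hd0
      have : (d : Om) = 0 := by rw [← he]; ring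
      exact_mod_cast this
    have hx2O : (x : Om) ^ 2 = d * ((y : Om) ^ 2 + z ^ 2) := by
      have : ((x ^ 2 : ℚ) : Om) = ((d * (y ^ 2 + z ^ 2) : ℚ) : Om) := by rw [hx2]
      push_cast at this
      exact this
    have hiO : i ^ 2 = -1 := by rw [hi]; push_cast; ring
    have hdO : (d : Om) ≠ 0 := by exact_mod_cast hd0
    have hyzi : ((y : Om) + z * i) * (y - z * i) = (y : Om) ^ 2 + z ^ 2 := by
      linear_combination (-(z : Om) ^ 2) * hiO
    have hp0 : p ≠ 0 := by
      rintro rfl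
      have h1 : (y : Om) + z * i = 0 := by rw [← hp]; ring
      rw [h1, zero_mul] at hyzi
      have h2 : ((y ^ 2 + z ^ 2 : ℚ) : Om) = 0 := by push_cast; exact hyzi.symm
      have h3 : y ^ 2 + z ^ 2 = 0 := by exact_mod_cast h2
      linarith
    have hr20 : r2 ≠ 0 := by
      rintro rfl
      norm_num at hr2
    have hp' : (x / (e * p)) ^ 2 = (y : Om) - z * i := by
      rw [div_pow, mul_pow, he, hp, div_eq_iff]
      · linear_combination hx2O - (d : Om) * hyzi
      · apply mul_ne_zero hdO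
        rw [← hp]
        exact pow_ne_zero 2 hp0
    refine mem_of_sq (v := f * (p + x / (e * p)) / r2) ?_
      (div_mem (mul_mem hfm (add_mem hpm (div_mem (rat_mem _ x) (mul_mem hem hpm)))) hr2m)
    have h5 : (p + x / (e * p)) ^ 2 = p ^ 2 + (x / (e * p)) ^ 2 + 2 * x / e := by
      field_simp
      ring
    rw [div_pow, mul_pow, h5, hp, hp', hf, hr2, hs]
    push_cast
    field_simp
    ring
  · exact dmem0 hc hd hcd he hs

/-- The main formula. -/
theorem core {A B : Om} {a b r u β3 γ2 γ3 : ℚ} (hA : A ^ 2 = (a : Om)) (hB : B ^ 2 = (b : Om))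
    {X1 X3 Y2 Y3 Z1 Z2 Z3 t : Om} (hY3 : Y3 = β3 * B)
    (hZ2 : Z2 = γ2 * (A * B)) (hZ3 : Z3 = γ3 * (A * B))
    (hu : u ≠ 0) (h1 : X3 ^ 2 + Y3 ^ 2 = (u : Om)) (h2 : Z1 ^ 2 + Z2 ^ 2 = (u : Om))
    (h3 : Z3 ^ 2 = 1 - (u : Om)) (h4 : (X1 + Y2) * (1 - Z3) = -(Y3 * Z2 + X3 * Z1))
    (ht : t ^ 2 = (r : Om) * (1 + X1 + Y2 + Z3)) : t ∈ QD4 Om := by
  have huO : (u : Om) ≠ 0 := by exact_mod_cast hu
  obtain ⟨δ, hδ⟩ := exists_sqrt (u : Om)
  have hδ0 : δ ≠ 0 := by
    rintro rfl
    apply huO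
    rw [← hδ]; ring
  have h2O : (2 : Om) ≠ 0 := by norm_num
  obtain ⟨A1, hA1⟩ := exists_sqrt ((1 + Y3 / δ) / 2)
  obtain ⟨A2, hA2, hA12⟩ : ∃ A2 : Om, A2 ^ 2 = (1 - Y3 / δ) / 2 ∧ A1 * A2 = X3 / δ / 2 := by
    obtain ⟨A2, hA2⟩ := exists_sqrt ((1 - Y3 / δ) / 2)
    have h5 : (A1 * A2) ^ 2 = (X3 / δ / 2) ^ 2 := by
      rw [mul_pow, hA1, hA2]
      field_simp
      linear_combination hδ - h1
    rcases sq_cases h5 with h | h
    · exact ⟨A2, hA2, h⟩
    · exact ⟨-A2, by rw [neg_sq]; exact hA2, by rw [mul_neg, h, neg_neg]⟩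
  obtain ⟨C1, hC1⟩ := exists_sqrt ((1 + -Z2 / δ) / 2)
  obtain ⟨C2, hC2, hC12⟩ : ∃ C2 : Om, C2 ^ 2 = (1 - -Z2 / δ) / 2 ∧ C1 * C2 = Z1 / δ / 2 := by
    obtain ⟨C2, hC2⟩ := exists_sqrt ((1 - -Z2 / δ) / 2)
    have h5 : (C1 * C2) ^ 2 = (Z1 / δ / 2) ^ 2 := by
      rw [mul_pow, hC1, hC2]
      field_simp
      linear_combination hδ - h2
    rcases sq_cases h5 with h | h
    · exact ⟨C2, hC2, h⟩
    · exact ⟨-C2, by rw [neg_sq]; exact hC2, by rw [mul_neg, h, neg_neg]⟩
  obtain ⟨B1, hB1⟩ := exists_sqrt (1 + Z3)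
  obtain ⟨m, hm⟩ := exists_sqrt ((2 * r : ℚ) : Om)
  have hY : Y3 / δ = (β3 / u : Om) * (B * δ) := by
    rw [hY3, ← hδ]; field_simp
  have hZ : Z2 / δ = (γ2 / u : Om) * (A * B * δ) := by
    rw [hZ2, ← hδ]; field_simp
  have e1 : (B * δ) ^ 2 = ((b * u : ℚ) : Om) := by rw [mul_pow, hB, hδ]; push_cast; ring
  have e2 : (A * B * δ) ^ 2 = ((a * b * u : ℚ) : Om) := by
    rw [mul_pow, mul_pow, hA, hB, hδ]; push_cast; ring
  have e3 : (A * B) ^ 2 = ((a * b : ℚ) : Om) := by rw [mul_pow, hA, hB]; push_cast; ring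
  have hA1m : A1 ∈ QD4 Om := dmem (x := 1 / 2) (y := β3 / (2 * u)) e1
    (by rw [hA1, hY]; push_cast; ring)
  have hA2m : A2 ∈ QD4 Om := dmem (x := 1 / 2) (y := -β3 / (2 * u)) e1
    (by rw [hA2, hY]; push_cast; ring)
  have hC1m : C1 ∈ QD4 Om := dmem (x := 1 / 2) (y := -γ2 / (2 * u)) e2
    (by rw [hC1, neg_div, hZ]; push_cast; ring)
  have hC2m : C2 ∈ QD4 Om := dmem (x := 1 / 2) (y := γ2 / (2 * u)) e2
    (by rw [hC2, neg_div, hZ]; push_cast; ring)
  have hB1m : B1 ∈ QD4 Om := dmem (x := 1) (y := γ3) e3 (by rw [hB1, hZ3]; push_cast; ring)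
  have hmm : m ∈ QD4 Om := mem_of_sq_rat hm
  refine mem_of_sq (v := m * B1 * (A1 * C1 - A2 * C2)) ?_
    (mul_mem (mul_mem hmm hB1m) (sub_mem (mul_mem hA1m hC1m) (mul_mem hA2m hC2m)))
  have h6 : (A1 * C1 - A2 * C2) ^ 2 = (1 + -(Y3 * Z2 + X3 * Z1) / u) / 2 := by
    have : (A1 * C1 - A2 * C2) ^ 2 = A1 ^ 2 * C1 ^ 2 + A2 ^ 2 * C2 ^ 2 -
        2 * (A1 * A2) * (C1 * C2) := by ring
    rw [this, hA1, hA2, hC1, hC2, hA12, hC12, ← hδ]
    field_simp
    ring
  rw [mul_pow, mul_pow, hm, hB1, h6, ht]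
  have h7 : (X1 + Y2) * (u : Om) = -(1 + Z3) * (Y3 * Z2 + X3 * Z1) := by
    linear_combination (1 + Z3) * h4 + (X1 + Y2) * h3
  push_cast
  field_simp
  linear_combination (r : Om) * h7

end Pool.Agent.Q20.QD
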