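import Pool.Agent.Q20.QD.B

/-! Quaternion extensions lie in the compositum of all dihedral octic extensions. -/

set_option autoImplicit false
set_option linter.unusedSectionVars false

attribute [-instance] DivisionRing.toRatAlgebra

namespace Pool.Agent.Q20.QD

open IntermediateField

variable {Om : Type*} [Field Om] [CharZero Om] [Algebra ℚ Om] [IsAlgClosed Om]
  [Algebra.IsAlgebraic ℚ Om]

section

variable {K : IntermediateField ℚ Om} {i j z : K ≃ₐ[ℚ] K}

/-- the relations of the quaternion group -/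
structure Quat (i j z : K ≃ₐ[ℚ] K) : Prop where
  ii : ∀ x, i (i x) = z x
  jj : ∀ x, j (j x) = z x
  zz : ∀ x, z (z x) = x
  ji : ∀ x, j (i x) = z (i (j x))
  zi : ∀ x, z (i x) = i (z x)
  zj : ∀ x, z (j x) = j (z x)
  ne : ∃ x, z x ≠ x
  fix : ∀ x, i x = x → j x = x → ∃ q : ℚ, x = q

/-- sum of squares of conjugates -/
noncomputable def NN (i j : K ≃ₐ[ℚ] K) (t : K) : K := t ^ 2 + (i t) ^ 2 + (j t) ^ 2 + (i (j t)) ^ 2

theorem exists_t (H : Quat i j z) : ∃ t : K, z t = -t ∧ NN i j t ≠ 0 := by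
  obtain ⟨x, hx⟩ := H.ne
  have h0 : x - z x ≠ 0 := sub_ne_zero.mpr (Ne.symm hx)
  have h1 : z (x - z x) = -(x - z x) := by rw [map_sub, H.zz]; ring
  generalize x - z x = t at h0 h1
  have h2 : z t⁻¹ = -t⁻¹ := by rw [map_inv₀, h1, inv_neg]
  by_cases h3 : NN i j t = 0
  · by_cases h4 : NN i j t⁻¹ = 0
    · refine ⟨t + t⁻¹, by rw [map_add, h1, h2]; ring, ?_⟩
      have hi : i t ≠ 0 := (map_ne_zero i).mpr h0
      have hj : j t ≠ 0 := (map_ne_zero j).mpr h0
      have hij : i (j t) ≠ 0 := (map_ne_zero i).mpr hj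
      have e : NN i j (t + t⁻¹) = NN i j t + NN i j t⁻¹ + 8 := by
        unfold NN
        simp only [map_add, map_inv₀]
        field_simp
        ring
      rw [e, h3, h4]
      norm_num
    · exact ⟨_, h2, h4⟩
  · exact ⟨_, h1, h3⟩

theorem ratio_rat (H : Quat i j z) {x y : K} (hy : y ≠ 0) {ε η : K}
    (hε : ε ≠ 0) (hη : η ≠ 0) (h1 : i x = ε * x) (h2 : j x = η * x)
    (h3 : i y = ε * y) (h4 : j y = η * y) : ∃ q : ℚ, x = q * y := by
  obtain ⟨q, hq⟩ := H.fix (x / y)
    (by rw [map_div₀, h1, h3, mul_div_mul_left _ _ hε])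
    (by rw [map_div₀, h2, h4, mul_div_mul_left _ _ hη])
  exact ⟨q, by rw [← hq]; field_simp⟩

theorem all_mem (H : Quat i j z) (y : K) : (y : Om) ∈ QD4 Om := by
  obtain ⟨t0, ht0, hN0⟩ := exists_t H
  -- the action on the conjugates
  have act : ∀ t : K, z t = -t → i (i t) = -t ∧ i (i (j t)) = -(j t) ∧ j (i t) = -(i (j t)) ∧
      j (j t) = -t ∧ j (i (j t)) = i t := by
    intro t ht
    refine ⟨by rw [H.ii, ht], ?_, ?_, by rw [H.jj, ht], ?_⟩
    · rw [H.ii, H.zj, ht, map_neg]
    · rw [H.ji, H.zi, H.zj, ht, map_neg, map_neg]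
    · rw [H.ji, H.jj, ht, map_neg, map_neg, H.zi, ht, map_neg, neg_neg]
  obtain ⟨A, hA0, hiA, hjA⟩ : ∃ A : K, A ≠ 0 ∧ i A = 1 * A ∧ j A = (-1) * A := by
    obtain ⟨e1, e2, e3, e4, e5⟩ := act t0 ht0
    by_contra hc
    push Not at hc
    have k1 : t0 ^ 2 + (i t0) ^ 2 - (j t0) ^ 2 - (i (j t0)) ^ 2 = 0 := by
      by_contra h
      refine hc _ h ?_ ?_
      · simp only [map_add, map_sub, map_pow, e1, e2]; ring
      · simp only [map_add, map_sub, map_pow, e3, e4, e5]; ring
    have k2 : 2 * (i t0 * j t0 - t0 * i (j t0)) = 0 := by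
      by_contra h
      refine hc _ h ?_ ?_
      · simp only [map_mul, map_sub, map_ofNat, e1, e2]; ring
      · simp only [map_mul, map_sub, map_ofNat, e3, e4, e5]; ring
    have k3 : 2 * (i t0 * i (j t0) + t0 * j t0) = 0 := by
      by_contra h
      refine hc _ h ?_ ?_
      · simp only [map_mul, map_add, map_ofNat, e1, e2]; ring
      · simp only [map_mul, map_add, map_ofNat, e3, e4, e5]; ring
    apply hN0
    have : (NN i j t0) ^ 2 = 0 := by
      unfold NN
      linear_combination (t0 ^ 2 + (i t0) ^ 2 - (j t0) ^ 2 - (i (j t0)) ^ 2) * k1 +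
        (2 * (i t0 * j t0 - t0 * i (j t0))) * k2 + (2 * (i t0 * i (j t0) + t0 * j t0)) * k3
    exact pow_eq_zero_iff (two_ne_zero) |>.mp this
  obtain ⟨B, hB0, hiB, hjB⟩ : ∃ B : K, B ≠ 0 ∧ i B = (-1) * B ∧ j B = 1 * B := by
    obtain ⟨e1, e2, e3, e4, e5⟩ := act t0 ht0
    by_contra hc
    push Not at hc
    have k1 : t0 ^ 2 - (i t0) ^ 2 + (j t0) ^ 2 - (i (j t0)) ^ 2 = 0 := by
      by_contra h
      refine hc _ h ?_ ?_
      · simp only [map_add, map_sub, map_pow, e1, e2]; ring
      · simp only [map_add, map_sub, map_pow, e3, e4, e5]; ring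
    have k2 : 2 * (i t0 * j t0 + t0 * i (j t0)) = 0 := by
      by_contra h
      refine hc _ h ?_ ?_
      · simp only [map_mul, map_add, map_ofNat, e1, e2]; ring
      · simp only [map_mul, map_add, map_ofNat, e3, e4, e5]; ring
    have k3 : 2 * (j t0 * i (j t0) - t0 * i t0) = 0 := by
      by_contra h
      refine hc _ h ?_ ?_
      · simp only [map_mul, map_sub, map_ofNat, e1, e2]; ring
      · simp only [map_mul, map_sub, map_ofNat, e3, e4, e5]; ring
    apply hN0
    have : (NN i j t0) ^ 2 = 0 := by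
      unfold NN
      linear_combination (t0 ^ 2 - (i t0) ^ 2 + (j t0) ^ 2 - (i (j t0)) ^ 2) * k1 +
        (2 * (i t0 * j t0 + t0 * i (j t0))) * k2 + (2 * (j t0 * i (j t0) - t0 * i t0)) * k3
    exact pow_eq_zero_iff (two_ne_zero) |>.mp this
  obtain ⟨a, ha⟩ := H.fix (A ^ 2) (by rw [map_pow, hiA]; ring) (by rw [map_pow, hjA]; ring)
  obtain ⟨b, hb⟩ := H.fix (B ^ 2) (by rw [map_pow, hiB]; ring) (by rw [map_pow, hjB]; ring)
  have hAO : (A : Om) ^ 2 = (a : Om) := by
    have := congrArg (Subtype.val) ha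
    push_cast at this
    exact this
  have hBO : (B : Om) ^ 2 = (b : Om) := by
    have := congrArg (Subtype.val) hb
    push_cast at this
    exact this
  have hAm : (A : Om) ∈ QD4 Om := mem_of_sq_rat hAO
  have hBm : (B : Om) ∈ QD4 Om := mem_of_sq_rat hBO
  -- elements fixed by `z`
  have hL : ∀ l : K, z l = l → (l : Om) ∈ QD4 Om := by
    intro l hl
    have f1 : i (i l) = l := by rw [H.ii, hl]
    have f2 : j (j l) = l := by rw [H.jj, hl]
    have f3 : j (i l) = i (j l) := by rw [H.ji, H.zi, H.zj, hl]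
    have f4 : i (i (j l)) = j l := by rw [H.ii, H.zj, hl]
    have f5 : j (i (j l)) = i l := by rw [H.ji, H.jj, hl, H.zi, hl]
    obtain ⟨q0, h0⟩ := H.fix (l + i l + j l + i (j l))
      (by simp only [map_add, f1, f4]; ring) (by simp only [map_add, f2, f3, f5]; ring)
    obtain ⟨q1, h1⟩ := ratio_rat H (x := l + i l - j l - i (j l)) hA0 (one_ne_zero)
      (neg_ne_zero.mpr one_ne_zero)
      (by simp only [map_add, map_sub, f1, f4]; ring) (by simp only [map_add, map_sub, f2, f3, f5]; ring)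
      hiA hjA
    obtain ⟨q2, h2⟩ := ratio_rat H (x := l - i l + j l - i (j l)) hB0
      (neg_ne_zero.mpr one_ne_zero) (one_ne_zero)
      (by simp only [map_add, map_sub, f1, f4]; ring) (by simp only [map_add, map_sub, f2, f3, f5]; ring)
      hiB hjB
    obtain ⟨q3, h3⟩ := ratio_rat H (x := l - i l - j l + i (j l)) (mul_ne_zero hA0 hB0)
      (neg_ne_zero.mpr one_ne_zero) (neg_ne_zero.mpr one_ne_zero)
      (by simp only [map_add, map_sub, f1, f4]; ring) (by simp only [map_add, map_sub, f2, f3, f5]; ring)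
      (by rw [map_mul, hiA, hiB]; ring) (by rw [map_mul, hjA, hjB]; ring)
    have h4 : 4 * l = (q0 : K) + q1 * A + q2 * B + q3 * (A * B) := by
      linear_combination h0 + h1 + h2 + h3
    have h5 : (l : Om) = ((q0 : Om) + q1 * A + q2 * B + q3 * (A * B)) / 4 := by
      have := congrArg (Subtype.val) h4
      have e4 : ((4 : K) : Om) = 4 := rfl
      push_cast [e4] at this
      rw [eq_div_iff (by norm_num)]
      linear_combination this
    rw [h5]
    exact div_mem (add_mem (add_mem (add_mem (rat_mem _ _) (mul_mem (rat_mem _ _) hAm))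
      (mul_mem (rat_mem _ _) hBm)) (mul_mem (rat_mem _ _) (mul_mem hAm hBm))) (ofNat_mem _ 4)
  -- the element `t0`
  have hmain : (t0 : Om) ∈ QD4 Om := by
    obtain ⟨e1, e2, e3, e4, e5⟩ := act t0 ht0
    obtain ⟨n, hn⟩ := H.fix (NN i j t0)
      (by unfold NN; simp only [map_add, map_pow, e1, e2]; ring)
      (by unfold NN; simp only [map_add, map_pow, e3, e4, e5]; ring)
    have hn0 : (n : K) ≠ 0 := by rw [← hn]; exact hN0
    have hnO : (n : Om) ≠ 0 := by
      intro h
      have h' : n = 0 := by exact_mod_cast h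
      rw [h'] at hn0
      simp at hn0
    obtain ⟨β3, h3⟩ := ratio_rat H (x := 2 * (j t0 * i (j t0) - t0 * i t0)) hB0
      (neg_ne_zero.mpr one_ne_zero) (one_ne_zero)
      (by simp only [map_mul, map_sub, map_ofNat, e1, e2]; ring)
      (by simp only [map_mul, map_sub, map_ofNat, e3, e4, e5]; ring)
      hiB hjB
    obtain ⟨γ2, h2⟩ := ratio_rat H (x := 2 * (j t0 * i (j t0) + t0 * i t0)) (mul_ne_zero hA0 hB0)
      (neg_ne_zero.mpr one_ne_zero) (neg_ne_zero.mpr one_ne_zero)
      (by simp only [map_mul, map_add, map_ofNat, e1, e2]; ring)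
      (by simp only [map_mul, map_add, map_ofNat, e3, e4, e5]; ring)
      (by rw [map_mul, hiA, hiB]; ring) (by rw [map_mul, hjA, hjB]; ring)
    obtain ⟨γ3, h1⟩ := ratio_rat H (x := t0 ^ 2 - (i t0) ^ 2 - (j t0) ^ 2 + (i (j t0)) ^ 2)
      (mul_ne_zero hA0 hB0)
      (neg_ne_zero.mpr one_ne_zero) (neg_ne_zero.mpr one_ne_zero)
      (by simp only [map_add, map_sub, map_pow, e1, e2]; ring)
      (by simp only [map_add, map_sub, map_pow, e3, e4, e5]; ring)
      (by rw [map_mul, hiA, hiB]; ring) (by rw [map_mul, hjA, hjB]; ring)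
    have hnx : (t0 : Om) ^ 2 + ((i t0 : K) : Om) ^ 2 + ((j t0 : K) : Om) ^ 2 +
        ((i (j t0) : K) : Om) ^ 2 = (n : Om) := by
      have := congrArg (Subtype.val) hn
      unfold NN at this
      push_cast at this
      exact this
    have h3O : 2 * (((j t0 : K) : Om) * ((i (j t0) : K) : Om) - (t0 : Om) * ((i t0 : K) : Om)) =
        (β3 : Om) * B := by
      have := congrArg (Subtype.val) h3
      have e2' : ((2 : K) : Om) = 2 := rfl
      push_cast [e2'] at this
      exact this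
    have h2O : 2 * (((j t0 : K) : Om) * ((i (j t0) : K) : Om) + (t0 : Om) * ((i t0 : K) : Om)) =
        (γ2 : Om) * ((A : Om) * B) := by
      have := congrArg (Subtype.val) h2
      have e2' : ((2 : K) : Om) = 2 := rfl
      push_cast [e2'] at this
      exact this
    have h1O : (t0 : Om) ^ 2 - ((i t0 : K) : Om) ^ 2 - ((j t0 : K) : Om) ^ 2 +
        ((i (j t0) : K) : Om) ^ 2 = (γ3 : Om) * ((A : Om) * B) := by
      have := congrArg (Subtype.val) h1
      push_cast at this
      exact this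
    -- `u ≠ 0`
    have hu : (1 : ℚ) - γ3 ^ 2 * a * b / n ^ 2 ≠ 0 := by
      intro hu
      have hn0' : n ≠ 0 := by
        rintro rfl
        simp at hn0
      have h6 : γ3 ^ 2 * a * b = n ^ 2 := by
        field_simp at hu
        linarith
      have h7 : (γ3 : K) ^ 2 * a * b = (n : K) ^ 2 := by
        have : ((γ3 ^ 2 * a * b : ℚ) : K) = ((n ^ 2 : ℚ) : K) := by rw [h6]
        push_cast at this
        exact this
      have h8 : ((γ3 : K) * (A * B)) ^ 2 = (n : K) ^ 2 := by
        linear_combination h7 + (γ3 : K) ^ 2 * B ^ 2 * ha + (γ3 : K) ^ 2 * (a : K) * hb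
      have h9 : i ((γ3 : K) * (A * B)) = -((γ3 : K) * (A * B)) := by
        rw [map_mul, map_mul, hiA, hiB, map_ratCast]; ring
      have h10 : i (n : K) = n := map_ratCast i n
      rcases sq_eq_sq_iff_eq_or_eq_neg.mp h8 with h | h
      · rw [h, h10] at h9
        apply hn0
        have : 2 * (n : K) = 0 := by linear_combination h9
        rcases mul_eq_zero.mp this with h' | h'
        · norm_num at h'
        · exact h'
      · rw [h, map_neg, h10, neg_neg] at h9
        apply hn0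
        have : 2 * (n : K) = 0 := by linear_combination -h9
        rcases mul_eq_zero.mp this with h' | h'
        · norm_num at h'
        · exact h'
    generalize (t0 : Om) = x0 at *
    generalize ((i t0 : K) : Om) = x1 at *
    generalize ((j t0 : K) : Om) = x2 at *
    generalize ((i (j t0) : K) : Om) = x3 at *
    have hZ3 : (x0 ^ 2 - x1 ^ 2 - x2 ^ 2 + x3 ^ 2) ^ 2 = (γ3 : Om) ^ 2 * a * b := by
      rw [h1O]
      linear_combination (γ3 : Om) ^ 2 * (B : Om) ^ 2 * hAO + (γ3 : Om) ^ 2 * (a : Om) * hBO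
    refine core (A := (A : Om)) (B := (B : Om)) (a := a) (b := b) (r := n / 4)
      (u := 1 - γ3 ^ 2 * a * b / n ^ 2) (β3 := β3 / n) (γ2 := γ2 / n) (γ3 := γ3 / n)
      (X1 := (x0 ^ 2 + x1 ^ 2 - x2 ^ 2 - x3 ^ 2) / n) (X3 := 2 * (x1 * x3 + x0 * x2) / n)
      (Y2 := (x0 ^ 2 - x1 ^ 2 + x2 ^ 2 - x3 ^ 2) / n) (Y3 := 2 * (x2 * x3 - x0 * x1) / n)
      (Z1 := 2 * (x1 * x3 - x0 * x2) / n) (Z2 := 2 * (x2 * x3 + x0 * x1) / n)
      (Z3 := (x0 ^ 2 - x1 ^ 2 - x2 ^ 2 + x3 ^ 2) / n) hAO hBO ?_ ?_ ?_ hu ?_ ?_ ?_ ?_ ?_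
    · rw [h3O]; push_cast; ring
    · rw [h2O]; push_cast; ring
    · rw [h1O]; push_cast; ring
    · push_cast
      rw [← hZ3, ← hnx]
      rw [← hnx] at hnO
      field_simp
      ring
    · push_cast
      rw [← hZ3, ← hnx]
      rw [← hnx] at hnO
      field_simp
      ring
    · push_cast
      rw [← hZ3]
      field_simp
      ring
    · rw [← hnx]
      rw [← hnx] at hnO
      field_simp
      ring
    · push_cast
      rw [← hnx]
      rw [← hnx] at hnO
      field_simp
      ring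
  -- conclusion
  have ht00 : t0 ≠ 0 := by
    rintro rfl
    apply hN0
    unfold NN
    simp
  have hy1 : z (y + z y) = y + z y := by rw [map_add, H.zz]; ring
  have hy2 : z ((y - z y) / t0) = (y - z y) / t0 := by
    rw [map_div₀, map_sub, H.zz, ht0]
    field_simp
    ring
  have h5 : (y : Om) = (((y + z y : K) : Om) + (((y - z y) / t0 : K) : Om) * t0) / 2 := by
    have ht00' : (t0 : Om) ≠ 0 := fun h => ht00 (Subtype.ext h)
    push_cast
    field_simp
    ring
  rw [h5]
  exact div_mem (add_mem (hL _ hy1) (mul_mem (hL _ hy2) hmain)) (ofNat_mem _ 2)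

end

end Pool.Agent.Q20.QD
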