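import Pool.Agent.Q20.QD.C

/-! Quaternion extensions: the relations of the quaternion group. -/

set_option autoImplicit false
set_option linter.unusedSectionVars false

attribute [-instance] DivisionRing.toRatAlgebra

namespace Pool.Agent.Q20.QD

open IntermediateField

variable {Om : Type*} [Field Om] [CharZero Om] [Algebra ℚ Om] [IsAlgClosed Om]
  [Algebra.IsAlgebraic ℚ Om]

theorem le_of_quaternion (K : IntermediateField ℚ Om) (hG : IsGalois ℚ K)
    (φ : (K ≃ₐ[ℚ] K) ≃* QuaternionGroup 2) : K ≤ QD4 Om := by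
  intro y hy
  refine all_mem (i := φ.symm (QuaternionGroup.a 1))
    (j := φ.symm (QuaternionGroup.xa 0)) (z := φ.symm (QuaternionGroup.a 2)) ?_ ⟨y, hy⟩
  have hmul : ∀ (g h k : QuaternionGroup 2), g * h = k →
      ∀ x : K, φ.symm g (φ.symm h x) = φ.symm k x := by
    intro g h k hk x
    rw [← hk, map_mul]
    rfl
  have hmul2 : ∀ (g h k l : QuaternionGroup 2), g * h = k * l →
      ∀ x : K, φ.symm g (φ.symm h x) = φ.symm k (φ.symm l x) := by
    intro g h k l hk x
    rw [hmul g h _ hk, ← hmul k l _ rfl]
  refine ⟨?_, ?_, ?_, ?_, ?_, ?_, ?_, ?_⟩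
  · exact hmul _ _ _ (by decide)
  · exact hmul _ _ _ (by decide)
  · intro x
    rw [hmul (QuaternionGroup.a 2) (QuaternionGroup.a 2) 1 (by decide), map_one]
    rfl
  · intro x
    rw [hmul (QuaternionGroup.a 1) (QuaternionGroup.xa 0) (QuaternionGroup.xa (-1)) (by decide),
      hmul (QuaternionGroup.a 2) _ (QuaternionGroup.xa 1) (by decide)]
    exact hmul _ _ _ (by decide) x
  · exact hmul2 _ _ _ _ (by decide)
  · exact hmul2 _ _ _ _ (by decide)
  · by_contra hc
    push Not at hc
    have h3 : φ.symm (QuaternionGroup.a 2) = 1 := AlgEquiv.ext hc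
    have h4 : (QuaternionGroup.a 2 : QuaternionGroup 2) = 1 := by
      rw [← map_one φ.symm] at h3
      exact φ.symm.injective h3
    exact absurd h4 (by decide)
  · intro x hi hj
    have hpow : ∀ n : ℕ, φ.symm (QuaternionGroup.a (n : ZMod (2 * 2))) x = x := by
      intro n
      induction n with
      | zero =>
        have : φ.symm (QuaternionGroup.a ((0 : ℕ) : ZMod (2 * 2))) = 1 := by
          rw [Nat.cast_zero, ← QuaternionGroup.one_def, map_one]
        rw [this]; rfl
      | succ n ih =>
        have h5 := hmul (QuaternionGroup.a 1) (QuaternionGroup.a (n : ZMod (2 * 2)))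
          (QuaternionGroup.a ((n + 1 : ℕ) : ZMod (2 * 2)))
          (by rw [QuaternionGroup.a_mul_a]; congr 1; push_cast; ring) x
        rw [← h5, ih, hi]
    have ha : ∀ n : ZMod (2 * 2), φ.symm (QuaternionGroup.a n) x = x := by
      intro n
      have := hpow n.val
      rwa [ZMod.natCast_zmod_val] at this
    have hall : ∀ g : K ≃ₐ[ℚ] K, g x = x := by
      intro g
      obtain ⟨q, rfl⟩ := φ.symm.surjective g
      cases q with
      | a n => exact ha n
      | xa n =>
        have h5 := hmul (QuaternionGroup.xa 0) (QuaternionGroup.a n) (QuaternionGroup.xa n)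
          (by rw [QuaternionGroup.xa_mul_a, zero_add]) x
        rw [← h5, ha, hj]
    obtain ⟨q, hq⟩ := (InfiniteGalois.mem_range_algebraMap_iff_fixed x).mpr hall
    exact ⟨q, by rw [← hq]; exact eq_ratCast _ q⟩

end Pool.Agent.Q20.QD
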