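import Pool.Agent.Q20.QD.B

/-! The octic field of `x^8 + 84 x^6 + 1260 x^4 + 5292 x^2 + 441`. -/

set_option autoImplicit false
set_option linter.unusedSectionVars false

attribute [-instance] DivisionRing.toRatAlgebra

namespace Pool.Agent.Q20.QD

open IntermediateField

variable {Om : Type*} [Field Om] [CharZero Om] [Algebra ℚ Om] [IsAlgClosed Om]
  [Algebra.IsAlgebraic ℚ Om]

theorem root_mem {t A B : Om} (hA : A ^ 2 = ((3 : ℚ) : Om)) (hB : B ^ 2 = ((14 : ℚ) : Om))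
    (ht : t ^ 2 = -21 - 7 * A - 9 / 2 * B - 5 / 2 * (A * B)) : t ∈ QD4 Om := by
  have hA' : A ^ 2 = 3 := by rw [hA]; norm_num
  have hB' : B ^ 2 = 14 := by rw [hB]; norm_num
  refine core (A := A) (B := B) (a := 3) (b := 14) (r := -21) (u := 17 / 42)
    (β3 := -1 / 14) (γ2 := -1 / 42) (γ3 := 5 / 42)
    (X1 := A / 3) (X3 := A / 3) (Y2 := 3 * B / 14) (Y3 := -B / 14)
    (Z1 := -4 * (A * B) / 42) (Z2 := -(A * B) / 42) (Z3 := 5 * (A * B) / 42) hA hB ?_ ?_ ?_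
    (by norm_num) ?_ ?_ ?_ ?_ ?_
  · push_cast; ring
  · push_cast; ring
  · push_cast; ring
  · push_cast; linear_combination (1 / 9 : Om) * hA' + (1 / 196 : Om) * hB'
  · push_cast
    linear_combination (17 / 1764 : Om) * B ^ 2 * hA' + (17 * 3 / 1764 : Om) * hB'
  · push_cast
    linear_combination (25 / 1764 : Om) * B ^ 2 * hA' + (25 * 3 / 1764 : Om) * hB'
  · linear_combination (-B / 14) * hA' + (-A / 42) * hB'
  · push_cast
    rw [ht]
    ring

theorem root_mem' {t : Om} (ht : t ^ 8 + 84 * t ^ 6 + 1260 * t ^ 4 + 5292 * t ^ 2 + 441 = 0) :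
    t ∈ QD4 Om := by
  obtain ⟨A, hA⟩ := exists_sqrt ((3 : ℚ) : Om)
  obtain ⟨B, hB⟩ := exists_sqrt ((14 : ℚ) : Om)
  have hA' : A ^ 2 = 3 := by rw [hA]; norm_num
  have hB' : B ^ 2 = 14 := by rw [hB]; norm_num
  have h : ((t ^ 2 + 21 + 7 * A + 9 / 2 * B + 5 / 2 * (A * B)) *
      (t ^ 2 + 21 + 7 * A - 9 / 2 * B - 5 / 2 * (A * B))) *
      ((t ^ 2 + 21 - 7 * A + 9 / 2 * B - 5 / 2 * (A * B)) *
      (t ^ 2 + 21 - 7 * A - 9 / 2 * B + 5 / 2 * (A * B))) = 0 := by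
    have e1 : (t ^ 2 + 21 + 7 * A + 9 / 2 * B + 5 / 2 * (A * B)) *
      (t ^ 2 + 21 + 7 * A - 9 / 2 * B - 5 / 2 * (A * B)) =
      (t ^ 2 + 21) ^ 2 - 399 + (14 * (t ^ 2 + 21) - 315) * A := by
      linear_combination (49 - 25 / 4 * B ^ 2) * hA' + (-(81 : Om) / 4 - 45 / 2 * A - 75 / 4) * hB'
    have e2 : (t ^ 2 + 21 - 7 * A + 9 / 2 * B - 5 / 2 * (A * B)) *
      (t ^ 2 + 21 - 7 * A - 9 / 2 * B + 5 / 2 * (A * B)) =
      (t ^ 2 + 21) ^ 2 - 399 - (14 * (t ^ 2 + 21) - 315) * A := by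
      linear_combination (49 - 25 / 4 * B ^ 2) * hA' + (-(81 : Om) / 4 + 45 / 2 * A - 75 / 4) * hB'
    rw [e1, e2]
    linear_combination -(14 * (t ^ 2 + 21) - 315) ^ 2 * hA' + ht
  rcases mul_eq_zero.mp h with h | h
  · rcases mul_eq_zero.mp h with h | h
    · exact root_mem hA hB (by linear_combination h)
    · exact root_mem (B := -B) hA (by rw [neg_sq]; exact hB) (by linear_combination h)
  · rcases mul_eq_zero.mp h with h | h
    · exact root_mem (A := -A) (by rw [neg_sq]; exact hA) hB (by linear_combination h)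
    · exact root_mem (A := -A) (B := -B) (by rw [neg_sq]; exact hA) (by rw [neg_sq]; exact hB)
        (by linear_combination h)

end Pool.Agent.Q20.QD
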